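import Pool.Agent.LE.StmtsQE

/-!
# Row TER: the mean of the mass, errors of the ladder equation
-/

set_option autoImplicit false

open MeasureTheory ProbabilityTheory Function Filter

open scoped ENNReal BigOperators Topology NNReal ComplexOrder Matrix

noncomputable section

namespace Pool.Agent.LE.QD.H22

open Pool.Agent.Anderson hiding box mem_box card_box
open Pool.Agent.Loc Pool.Agent.Mob Pool.Agent.Helper54.Bal
  Pool.Agent.Helper96.EXP Pool.Agent.BED
open Pool.Agent.LE.MN Pool.Agent.LE.CL Pool.Agent.LE.IR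

/-! ### general lemmas -/

lemma n2_nonneg {X : Type} [Fintype X] (f : X → ℂ) : 0 ≤ n2 f :=
  Finset.sum_nonneg fun _ _ => by positivity

/-- Cauchy-Schwarz with a bounded weight -/
lemma cs {X : Type} [Fintype X] (f : X → ℝ) (u v : X → ℂ) (Φ : ℝ)
    (hf : ∀ x, 0 ≤ f x ∧ f x ≤ Φ) :
    ‖∑ a, (starRingEnd ℂ) (u a) * ((f a : ℂ) * v a)‖ ≤
      Φ * (Real.sqrt (n2 u) * Real.sqrt (n2 v)) := by
  by_cases hX : Nonempty X
  · obtain ⟨x₀⟩ := hX
    have hΦ : 0 ≤ Φ := (hf x₀).1.trans (hf x₀).2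
    calc ‖∑ a, (starRingEnd ℂ) (u a) * ((f a : ℂ) * v a)‖
        ≤ ∑ a, ‖(starRingEnd ℂ) (u a) * ((f a : ℂ) * v a)‖ := norm_sum_le _ _
      _ ≤ ∑ a, Φ * (‖u a‖ * ‖v a‖) := by
          refine Finset.sum_le_sum fun a _ => ?_
          rw [norm_mul, norm_mul, RCLike.norm_conj, Complex.norm_real, Real.norm_eq_abs,
            abs_of_nonneg (hf a).1]
          have : ‖u a‖ * (f a * ‖v a‖) = f a * (‖u a‖ * ‖v a‖) := by ring
          rw [this]
          exact mul_le_mul_of_nonneg_right (hf a).2 (by positivity)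
      _ = Φ * ∑ a, ‖u a‖ * ‖v a‖ := by rw [Finset.mul_sum]
      _ ≤ _ := by
          refine mul_le_mul_of_nonneg_left ?_ hΦ
          exact Real.sum_mul_le_sqrt_mul_sqrt _ _ _
  · have : IsEmpty X := not_nonempty_iff.mp hX
    simp [n2]

/-- a bound for the norm of an integral from a bound outside of a small set -/
lemma intb {Ω : Type} [MeasurableSpace Ω] (μ : Measure Ω) [IsProbabilityMeasure μ] (A : Set Ω)
    (X : Ω → ℂ) (a b q : ℝ) (hb : 0 ≤ b) (hq : 0 ≤ q)
    (hA : μ A ≤ ENNReal.ofReal q) (h1 : ∀ V, V ∉ A → ‖X V‖ ≤ a) (h2 : ∀ V, ‖X V‖ ≤ b)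
    (ha : 0 ≤ a) : ‖∫ V, X V ∂μ‖ ≤ a + b * q := by
  have hm : MeasurableSet (toMeasurable μ A) := measurableSet_toMeasurable μ A
  have hg : Integrable (fun V => a + (toMeasurable μ A).indicator (fun _ => b) V) μ := by
    refine (integrable_const a).add ?_
    exact (integrable_const b).indicator hm
  have hle : ∀ V, ‖X V‖ ≤ a + (toMeasurable μ A).indicator (fun _ => b) V := by
    intro V
    by_cases hV : V ∈ toMeasurable μ A
    · rw [Set.indicator_of_mem hV]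
      exact (h2 V).trans (by linarith)
    · rw [Set.indicator_of_notMem hV, add_zero]
      exact h1 V fun h => hV (subset_toMeasurable μ A h)
  refine (norm_integral_le_of_norm_le hg (Eventually.of_forall hle)).trans ?_
  rw [integral_add (integrable_const a) ((integrable_const b).indicator hm),
    integral_indicator hm]
  simp only [integral_const, smul_eq_mul, probReal_univ, one_mul]
  refine add_le_add le_rfl ?_
  rw [mul_comm b q]
  refine mul_le_mul_of_nonneg_right ?_ hb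
  rw [measureReal_restrict_apply_univ, measureReal_def, measure_toMeasurable]
  exact ENNReal.toReal_le_of_le_ofReal hq hA

variable {d M : ℕ} [NeZero M]

/-- Parseval -/
lemma par (ftb : FtbStmt) (F : Tor d M → ℂ) (b : Tor d M) :
    n2 (fun a : Tor d M => (∑ p, ec p (a - b) * F p) / (M : ℂ) ^ d) =
      (∑ p, ‖F p‖ ^ 2) / (M : ℝ) ^ d := by
  obtain ⟨-, -, -, -, -, h6, h7, h8, -⟩ := ftb d M
  obtain ⟨f, hf⟩ := h8 F
  have e1 : ∀ x, (∑ p, ec p x * F p) / (M : ℂ) ^ d = f x := by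
    intro x
    rw [h7 f x]
    simp only [hf]
  have e2 := h6 f
  simp only [hf] at e2
  simp only [n2, e1]
  rw [Fintype.sum_equiv (Equiv.subRight b) (fun x => ‖f (x - b)‖ ^ 2) (fun x => ‖f x‖ ^ 2)
    (fun x => rfl), e2]
  rfl

/-- the free resolvent is translation invariant -/
lemma g0_tr (ral : RalStmt) (ζ : ℂ) (hζ : 0 < ζ.im) (a b : Tor d M) :
    rs (0 : Tor d M → ℝ) ζ a b = rs (0 : Tor d M → ℝ) ζ 0 (b - a) := by
  obtain ⟨-, -, -, -, -, -, h7, -⟩ := ral d M (0 : Tor d M → ℝ) ζ hζ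
  have h := h7 a 0 (b - a)
  have e : tr a (0 : Tor d M → ℝ) = 0 := by
    funext y
    rfl
  rw [e, add_zero, add_sub_cancel] at h
  exact h.symm

lemma g0_kk (ral : RalStmt) (ζ : ℂ) (hζ : 0 < ζ.im) (a b : Tor d M) :
    ‖rs (0 : Tor d M → ℝ) ζ a b‖ ^ 2 = kk ζ (a - b) := by
  obtain ⟨-, h2, -⟩ := ral d M (0 : Tor d M → ℝ) ζ hζ
  rw [h2 a b, g0_tr ral ζ hζ b a]
  rfl

lemma g0_n2 (ral : RalStmt) (ζ : ℂ) (hζ : 0 < ζ.im) (b : Tor d M) :
    n2 (fun a => rs (0 : Tor d M → ℝ) ζ a b) = ∑ x : Tor d M, kk ζ x := by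
  simp only [n2, g0_kk ral ζ hζ]
  exact Fintype.sum_equiv (Equiv.subRight b) _ _ (fun x => rfl)

/-- the mass of a column of the resolvent -/
lemma col_n2 (ral : RalStmt) (V : Tor d M → ℝ) (z : ℂ) (hz : 0 < z.im) (b : Tor d M) :
    n2 (fun a => rs V z a b) = (rs V z b b).im / z.im := by
  obtain ⟨-, h2, -, -, h5, -⟩ := ral d M V z hz
  rw [← h5 b]
  simp only [n2]
  exact Finset.sum_congr rfl fun a _ => by rw [h2 a b]

/-- the second term, pointwise -/
lemma t2pt (ral : RalStmt) (V : Tor d M → ℝ) (z ζ g : ℂ) (hζ : 0 < ζ.im)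
    (f : Tor d M → ℝ) (C : Finset (Tor d M)) (Φ B δ : ℝ) (hf : ∀ x, 0 ≤ f x ∧ f x ≤ Φ)
    (hΦ : 0 ≤ Φ) (hδ : 0 ≤ δ) (hB : 0 ≤ B) (hcol : ∀ b, n2 (fun a => rs V z a b) ≤ B)
    (hD : ∀ x, ‖rs V z x x - g‖ ≤ δ) :
    ‖∑ x, (rs V z x x - g) * yd V z ζ f C x‖ ≤ C.card * Φ * (B * (δ / ζ.im)) := by
  obtain ⟨-, -, -, h4, -⟩ := ral d M (0 : Tor d M → ℝ) ζ hζ
  have e : ∑ x, (rs V z x x - g) * yd V z ζ f C x =
      ∑ b ∈ C, ∑ a, (starRingEnd ℂ) (rs V z a b) * ((f a : ℂ) *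
        (rs (0 : Tor d M → ℝ) ζ *ᵥ fun x => (rs V z x x - g) * rs V z x b) a) := by
    simp only [yd, Matrix.mulVec, dotProduct, Finset.mul_sum]
    rw [Finset.sum_comm]
    refine Finset.sum_congr rfl fun b _ => ?_
    rw [Finset.sum_comm]
    refine Finset.sum_congr rfl fun a _ => Finset.sum_congr rfl fun x _ => ?_
    ring
  rw [e]
  refine (norm_sum_le _ _).trans ?_
  have hb : ∀ b ∈ C, ‖∑ a, (starRingEnd ℂ) (rs V z a b) * ((f a : ℂ) *
        (rs (0 : Tor d M → ℝ) ζ *ᵥ fun x => (rs V z x x - g) * rs V z x b) a)‖ ≤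
      Φ * (B * (δ / ζ.im)) := by
    intro b _
    refine (cs f (fun a => rs V z a b)
      (rs (0 : Tor d M → ℝ) ζ *ᵥ fun x => (rs V z x x - g) * rs V z x b) Φ hf).trans ?_
    refine mul_le_mul_of_nonneg_left ?_ hΦ
    have k1 := (h4 (fun x => (rs V z x x - g) * rs V z x b)).1
    have k2 : n2 (fun x => (rs V z x x - g) * rs V z x b) ≤ δ ^ 2 * B := by
      have : n2 (fun x => (rs V z x x - g) * rs V z x b) ≤
          δ ^ 2 * n2 (fun a => rs V z a b) := by
        simp only [n2, Finset.mul_sum]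
        refine Finset.sum_le_sum fun x _ => ?_
        rw [norm_mul, mul_pow]
        exact mul_le_mul_of_nonneg_right (pow_le_pow_left₀ (norm_nonneg _) (hD x) 2)
          (by positivity)
      exact this.trans (mul_le_mul_of_nonneg_left (hcol b) (by positivity))
    have k3 : n2 (rs (0 : Tor d M → ℝ) ζ *ᵥ fun x => (rs V z x x - g) * rs V z x b) ≤
        (δ / ζ.im) ^ 2 * B := by
      refine k1.trans ?_
      rw [div_pow, div_mul_eq_mul_div]
      exact div_le_div_of_nonneg_right k2 (by positivity)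
    have k4 : Real.sqrt (n2 (rs (0 : Tor d M → ℝ) ζ *ᵥ
        fun x => (rs V z x x - g) * rs V z x b)) ≤ (δ / ζ.im) * Real.sqrt B := by
      refine (Real.sqrt_le_sqrt k3).trans ?_
      rw [Real.sqrt_mul (by positivity), Real.sqrt_sq (by positivity)]
    calc Real.sqrt (n2 (fun a => rs V z a b)) * Real.sqrt (n2 (rs (0 : Tor d M → ℝ) ζ *ᵥ
            fun x => (rs V z x x - g) * rs V z x b))
        ≤ Real.sqrt B * ((δ / ζ.im) * Real.sqrt B) :=
          mul_le_mul (Real.sqrt_le_sqrt (hcol b)) k4 (Real.sqrt_nonneg _) (Real.sqrt_nonneg _)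
      _ = (Real.sqrt B * Real.sqrt B) * (δ / ζ.im) := by ring
      _ = B * (δ / ζ.im) := by rw [Real.mul_self_sqrt hB]
  refine (Finset.sum_le_sum hb).trans ?_
  rw [Finset.sum_const, nsmul_eq_mul]
  exact le_of_eq (by ring)

/-- the third term, pointwise -/
lemma t3pt (V : Tor d M → ℝ) (z ζ : ℂ) (f : Tor d M → ℝ) (S : Tor d M → ℂ)
    (C : Finset (Tor d M)) (B e : ℝ) (he : 0 ≤ e)
    (hcol : ∀ b, n2 (fun a => rs V z a b) ≤ B) (hD : ∀ x, ‖od V z ζ f x - S x‖ ≤ e) :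
    ‖∑ x, (od V z ζ f x - S x) * (ro V z C x : ℂ)‖ ≤ e * (C.card * B) := by
  refine (norm_sum_le _ _).trans ?_
  have hro : ∀ x, 0 ≤ ro V z C x := fun x => Finset.sum_nonneg fun _ _ => by positivity
  have h1 : ∀ x ∈ Finset.univ, ‖(od V z ζ f x - S x) * (ro V z C x : ℂ)‖ ≤ e * ro V z C x := by
    intro x _
    rw [norm_mul, Complex.norm_real, Real.norm_eq_abs, abs_of_nonneg (hro x)]
    exact mul_le_mul_of_nonneg_right (hD x) (hro x)
  refine (Finset.sum_le_sum h1).trans ?_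
  rw [← Finset.mul_sum]
  refine mul_le_mul_of_nonneg_left ?_ he
  simp only [ro]
  rw [Finset.sum_comm]
  have h2 : ∀ b ∈ C, ∑ x, ‖rs V z x b‖ ^ 2 ≤ B := fun b _ => hcol b
  refine (Finset.sum_le_sum h2).trans ?_
  rw [Finset.sum_const, nsmul_eq_mul]

/-- TER -/
theorem ter (teq : TeqStmt) (ral : RalStmt) (ftb : FtbStmt) : TerStmt := by
  intro d M _ v E η δ₀ δ₂ s₀ K₀ g₀ Φ p ζ s C f hη hδ₀ hδ₂ hs₀ hΦ hp hgb hζe hs hm hK hg hf hfe
    hPD hPO
  set z : ℂ := ⟨E, η⟩ with hzdef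
  have hz : 0 < z.im := hη
  have hzim : z.im = η := rfl
  set g : ℂ := gb d M v z with hgdef
  have hζim : ζ.im = η + v * g.im := by
    rw [hζe]
    simp [hzim]
  have hw : η ≤ ζ.im := by
    rw [hζim]
    have : 0 ≤ (v : ℝ) * g.im := mul_nonneg v.2 hgb
    linarith
  have hζ : 0 < ζ.im := lt_of_lt_of_le hη hw
  have hpr : IsProbabilityMeasure (gau d M v) := by
    unfold gau
    infer_instance
  have hcard : (0 : ℝ) ≤ C.card := Nat.cast_nonneg _
  -- facts about the resolvent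
  have hcont : ∀ a b : Tor d M, Continuous fun W : Tor d M → ℝ => rs W z a b := by
    obtain ⟨-, -, -, -, -, -, -, -, -, h10, -⟩ := ral d M (0 : Tor d M → ℝ) z hz
    exact h10
  have hbd : ∀ (W : Tor d M → ℝ) (a b : Tor d M), ‖rs W z a b‖ ≤ 1 / η := by
    intro W
    obtain ⟨-, -, -, -, -, -, -, -, -, -, -, h12⟩ := ral d M W z hz
    exact h12
  have hint : ∀ a b : Tor d M, Integrable (fun W : Tor d M → ℝ => rs W z a b) (gau d M v) := by
    intro a b
    refine Integrable.of_bound (hcont a b).aestronglyMeasurable (1 / η) ?_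
    exact Eventually.of_forall fun W => hbd W a b
  have hgn : ‖g‖ ≤ 1 / η := by
    have := norm_integral_le_of_norm_le (integrable_const (1 / η))
      (Eventually.of_forall fun W : Tor d M → ℝ => hbd W 0 0) (μ := gau d M v)
    simpa [hgdef, gb] using this
  have hcolB : ∀ (W : Tor d M → ℝ) (b : Tor d M), n2 (fun a => rs W z a b) ≤ 1 / η ^ 2 := by
    intro W b
    rw [col_n2 ral W z hz b, hzim]
    have : (rs W z b b).im ≤ 1 / η := (Complex.im_le_norm _).trans (hbd W b b)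
    calc (rs W z b b).im / η ≤ (1 / η) / η := div_le_div_of_nonneg_right this hη.le
      _ = 1 / η ^ 2 := by rw [div_div, sq]
  have hg₀ : 0 ≤ g₀ := by linarith
  have hKnn : 0 ≤ ∑ x : Tor d M, kk ζ x := Finset.sum_nonneg fun _ _ => by
    unfold kk
    positivity
  have hK₀ : 0 ≤ K₀ := hKnn.trans hK
  -- the mean of the resolvent
  set Gm : Tor d M → Tor d M → ℂ := fun a b => ∫ W, rs W z a b ∂(gau d M v) with hGm
  set Δ : Tor d M → Tor d M → ℂ := fun a b => Gm a b - rs (0 : Tor d M → ℝ) ζ a b with hΔ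
  have h11 : ∀ x y : Tor d M, rs (0 : Tor d M → ℝ) ζ x y =
      (∑ p, ec p (x - y) * (1 / ((es p : ℂ) - ζ))) / (M : ℂ) ^ d := by
    intro x y
    obtain ⟨-, -, -, -, -, -, -, -, -, -, h, -⟩ := ral d M (0 : Tor d M → ℝ) ζ hζ
    rw [h x y]
    simp only [mul_one_div]
  have hΔe : ∀ a b, Δ a b = (∑ p, ec p (a - b) * (s p / ((es p : ℂ) - ζ))) / (M : ℂ) ^ d := by
    intro a b
    simp only [hΔ, hGm]
    rw [hm a b, h11 a b, ← sub_div, ← Finset.sum_sub_distrib]
    congr 1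
    refine Finset.sum_congr rfl fun p _ => ?_
    rw [add_div]
    ring
  have hΔn : ∀ b, n2 (fun a => Δ a b) ≤ s₀ ^ 2 * ∑ x : Tor d M, kk ζ x := by
    intro b
    have e1 : n2 (fun a => Δ a b) = (∑ p, ‖s p / ((es p : ℂ) - ζ)‖ ^ 2) / (M : ℝ) ^ d := by
      rw [← par ftb (fun p => s p / ((es p : ℂ) - ζ)) b]
      simp only [hΔe]
    have e2 : ∑ x : Tor d M, kk ζ x =
        (∑ p : Tor d M, ‖1 / ((es p : ℂ) - ζ)‖ ^ 2) / (M : ℝ) ^ d := by
      rw [← g0_n2 ral ζ hζ b, ← par ftb (fun p => 1 / ((es p : ℂ) - ζ)) b]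
      simp only [← h11]
    rw [e1, e2, ← mul_div_assoc, Finset.mul_sum]
    refine div_le_div_of_nonneg_right ?_ (by positivity)
    refine Finset.sum_le_sum fun p _ => ?_
    rw [norm_div, norm_div, div_pow, div_pow, norm_one, one_pow, mul_one_div]
    exact div_le_div_of_nonneg_right (pow_le_pow_left₀ (norm_nonneg _) (hs p) 2) (by positivity)
  have hΔcs : ∀ b, ‖∑ a, (starRingEnd ℂ) (Δ a b) * ((f a : ℂ) * rs (0 : Tor d M → ℝ) ζ a b)‖ ≤
      Φ * (s₀ * K₀) := by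
    intro b
    refine (cs f (fun a => Δ a b) (fun a => rs (0 : Tor d M → ℝ) ζ a b) Φ hf).trans ?_
    refine mul_le_mul_of_nonneg_left ?_ hΦ.le
    rw [g0_n2 ral ζ hζ b]
    calc Real.sqrt (n2 (fun a => Δ a b)) * Real.sqrt (∑ x : Tor d M, kk ζ x)
        ≤ Real.sqrt (s₀ ^ 2 * ∑ x : Tor d M, kk ζ x) * Real.sqrt (∑ x : Tor d M, kk ζ x) :=
          mul_le_mul_of_nonneg_right (Real.sqrt_le_sqrt (hΔn b)) (Real.sqrt_nonneg _)
      _ = s₀ * (Real.sqrt (∑ x : Tor d M, kk ζ x) * Real.sqrt (∑ x : Tor d M, kk ζ x)) := by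
          rw [Real.sqrt_mul (by positivity), Real.sqrt_sq hs₀]
          ring
      _ = s₀ * ∑ x : Tor d M, kk ζ x := by rw [Real.mul_self_sqrt hKnn]
      _ ≤ s₀ * K₀ := mul_le_mul_of_nonneg_left hK hs₀
  -- the mean of od
  have hod : ∀ x, ∫ W, od W z ζ f x ∂(gau d M v) =
      ∑ a, (starRingEnd ℂ) (Gm a x) * ((f a : ℂ) * rs (0 : Tor d M → ℝ) ζ a x) := by
    intro x
    simp only [od]
    rw [integral_finsetSum]
    · refine Finset.sum_congr rfl fun a _ => ?_
      rw [integral_mul_const, integral_conj]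
    · intro a _
      refine Integrable.mul_const ?_ _
      exact (Integrable.of_bound (by
        exact (Complex.continuous_conj.comp (hcont a x)).aestronglyMeasurable) (1 / η)
        (Eventually.of_forall fun W => by
          simpa [RCLike.norm_conj] using hbd W a x))
  set S : Tor d M → ℂ := fun x => ∑ a, (starRingEnd ℂ) (rs (0 : Tor d M → ℝ) ζ a x) *
    ((f a : ℂ) * rs (0 : Tor d M → ℝ) ζ a x) with hS
  have hodS : ∀ x, ‖(∫ W, od W z ζ f x ∂(gau d M v)) - S x‖ ≤ Φ * (s₀ * K₀) := by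
    intro x
    have e : (∫ W, od W z ζ f x ∂(gau d M v)) - S x =
        ∑ a, (starRingEnd ℂ) (Δ a x) * ((f a : ℂ) * rs (0 : Tor d M → ℝ) ζ a x) := by
      rw [hod x]
      simp only [hS, hΔ]
      rw [← Finset.sum_sub_distrib]
      refine Finset.sum_congr rfl fun a _ => ?_
      rw [map_sub]
      ring
    rw [e]
    exact hΔcs x
  -- the equation
  have hT := teq d M v z ζ f C hz hζ hζe
  have hL : (∫ V, ∑ x, (f x - v * ∑ y, kk ζ (x - y) * f y) * ro V z C x ∂(gau d M v)) =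
      ∫ W, mss W z C ∂(gau d M v) := by
    congr 1
    funext V
    simp only [hfe, mss, ro, ite_mul, one_mul, zero_mul]
    rw [Finset.sum_ite_mem, Finset.univ_inter]
  rw [hL] at hT
  -- the first term
  set T1 : ℂ := ∑ b ∈ C, ∑ a, (f a : ℂ) * rs (0 : Tor d M → ℝ) ζ a b *
    (starRingEnd ℂ) (∫ V, rs V z a b ∂(gau d M v)) with hT1
  have hT1e : T1 = ((∑ x, f x * ∑ y ∈ C, kk ζ (x - y) : ℝ) : ℂ) +
      ∑ b ∈ C, ∑ a, (starRingEnd ℂ) (Δ a b) * ((f a : ℂ) * rs (0 : Tor d M → ℝ) ζ a b) := by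
    have e1 : (∑ x, f x * ∑ y ∈ C, kk ζ (x - y) : ℝ) = ∑ b ∈ C, ∑ a, f a * kk ζ (a - b) := by
      simp only [Finset.mul_sum]
      rw [Finset.sum_comm]
    rw [e1, hT1]
    push_cast
    rw [← Finset.sum_add_distrib]
    refine Finset.sum_congr rfl fun b _ => ?_
    rw [← Finset.sum_add_distrib]
    refine Finset.sum_congr rfl fun a _ => ?_
    have e2 : (∫ V, rs V z a b ∂(gau d M v)) = Δ a b + rs (0 : Tor d M → ℝ) ζ a b := by
      simp only [hΔ, hGm]
      ring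
    have e3 : ((kk ζ (a - b) : ℝ) : ℂ) =
        rs (0 : Tor d M → ℝ) ζ a b * (starRingEnd ℂ) (rs (0 : Tor d M → ℝ) ζ a b) := by
      rw [← g0_kk ral ζ hζ a b, Complex.mul_conj, Complex.normSq_eq_norm_sq]
    rw [e2, e3, map_add]
    ring
  have hT1re : T1.re ≤ ∑ x, f x * ∑ y ∈ C, kk ζ (x - y) + C.card * Φ * (s₀ * K₀) := by
    rw [hT1e, Complex.add_re, Complex.ofReal_re]
    refine add_le_add le_rfl ?_
    refine (Complex.re_le_norm _).trans ((norm_sum_le _ _).trans ?_)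
    refine (Finset.sum_le_sum fun b _ => hΔcs b).trans ?_
    rw [Finset.sum_const, nsmul_eq_mul]
    exact le_of_eq (by ring)
  -- the exceptional set
  set A : Set (Tor d M → ℝ) := {V | ¬ ∀ x, ‖rs V z x x - g‖ ≤ δ₀} ∪
    {V | ¬ ∀ x, ‖od V z ζ f x - ∫ W, od W z ζ f x ∂(gau d M v)‖ ≤ δ₂ * Φ} with hA
  have hPA : gau d M v A ≤ ENNReal.ofReal (2 * p) := by
    refine (measure_union_le _ _).trans ((add_le_add hPD hPO).trans ?_)
    rw [← ENNReal.ofReal_add hp hp, two_mul]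
  have hcolA : ∀ V, V ∉ A → ∀ b, n2 (fun a => rs V z a b) ≤ g₀ / η := by
    intro V hV b
    have hD : ∀ x, ‖rs V z x x - g‖ ≤ δ₀ := by
      by_contra hh
      exact hV (Or.inl hh)
    rw [col_n2 ral V z hz b, hzim]
    refine div_le_div_of_nonneg_right ?_ hη.le
    have h1 : (rs V z b b).im - g.im ≤ δ₀ := by
      have := (Complex.im_le_norm (rs V z b b - g)).trans (hD b)
      simpa using this
    linarith
  -- the second term
  have hT2 : ‖∫ V, ∑ x, (rs V z x x - gb d M v z) * yd V z ζ f C x ∂(gau d M v)‖ ≤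
      C.card * Φ * (g₀ / η * (δ₀ / ζ.im)) + (C.card * Φ * (2 / η ^ 4)) * (2 * p) := by
    refine intb (gau d M v) A _ _ _ _ (by positivity) (by positivity) hPA ?_ ?_ (by positivity)
    · intro V hV
      have hD : ∀ x, ‖rs V z x x - g‖ ≤ δ₀ := by
        by_contra hh
        exact hV (Or.inl hh)
      exact t2pt ral V z ζ g hζ f C Φ (g₀ / η) δ₀ hf hΦ.le hδ₀ (by positivity) (hcolA V hV) hD
    · intro V
      have hD : ∀ x, ‖rs V z x x - g‖ ≤ 2 / η := by
        intro x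
        refine (norm_sub_le _ _).trans ?_
        have := add_le_add (hbd V x x) hgn
        refine this.trans (le_of_eq ?_)
        ring
      refine (t2pt ral V z ζ g hζ f C Φ (1 / η ^ 2) (2 / η) hf hΦ.le (by positivity)
        (by positivity) (hcolB V) hD).trans ?_
      refine mul_le_mul_of_nonneg_left ?_ (by positivity)
      calc 1 / η ^ 2 * (2 / η / ζ.im) ≤ 1 / η ^ 2 * (2 / η / η) := by
            refine mul_le_mul_of_nonneg_left ?_ (by positivity)
            exact div_le_div_of_nonneg_left (by positivity) hη hw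
        _ = 2 / η ^ 4 := by
            field_simp
  -- the third term
  have hT3 : ‖∫ V, ∑ x, (od V z ζ f x - ∑ a, (starRingEnd ℂ) (rs (0 : Tor d M → ℝ) ζ a x) *
      ((f a : ℂ) * rs (0 : Tor d M → ℝ) ζ a x)) * (ro V z C x : ℂ) ∂(gau d M v)‖ ≤
      (δ₂ * Φ + Φ * (s₀ * K₀)) * (C.card * (g₀ / η)) +
        ((2 * Φ / η ^ 2) * (C.card * (1 / η ^ 2))) * (2 * p) := by
    refine intb (gau d M v) A _ _ _ _ (by positivity) (by positivity) hPA ?_ ?_ (by positivity)
    · intro V hV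
      have hD : ∀ x, ‖od V z ζ f x - ∫ W, od W z ζ f x ∂(gau d M v)‖ ≤ δ₂ * Φ := by
        by_contra hh
        exact hV (Or.inr hh)
      refine t3pt V z ζ f S C (g₀ / η) (δ₂ * Φ + Φ * (s₀ * K₀)) (by positivity) (hcolA V hV) ?_
      intro x
      have e : od V z ζ f x - S x = (od V z ζ f x - ∫ W, od W z ζ f x ∂(gau d M v)) +
          ((∫ W, od W z ζ f x ∂(gau d M v)) - S x) := by ring
      rw [e]
      exact (norm_add_le _ _).trans (add_le_add (hD x) (hodS x))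
    · intro V
      refine t3pt V z ζ f S C (1 / η ^ 2) (2 * Φ / η ^ 2) (by positivity) (hcolB V) ?_
      intro x
      have hg0 : n2 (fun a => rs (0 : Tor d M → ℝ) ζ a x) ≤ 1 / η ^ 2 := by
        rw [col_n2 ral (0 : Tor d M → ℝ) ζ hζ x]
        obtain ⟨-, -, -, -, -, -, -, -, -, -, -, h12⟩ := ral d M (0 : Tor d M → ℝ) ζ hζ
        have k1 : (rs (0 : Tor d M → ℝ) ζ x x).im ≤ 1 / ζ.im :=
          (Complex.im_le_norm _).trans (h12 x x)
        calc (rs (0 : Tor d M → ℝ) ζ x x).im / ζ.im ≤ (1 / ζ.im) / ζ.im :=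
              div_le_div_of_nonneg_right k1 hζ.le
          _ = 1 / ζ.im ^ 2 := by rw [div_div, sq]
          _ ≤ 1 / η ^ 2 := by
              refine div_le_div_of_nonneg_left (by norm_num) (by positivity) ?_
              exact pow_le_pow_left₀ hη.le hw 2
      have hsq : Real.sqrt (1 / η ^ 2) * Real.sqrt (1 / η ^ 2) = 1 / η ^ 2 :=
        Real.mul_self_sqrt (by positivity)
      have b1 : ‖od V z ζ f x‖ ≤ Φ * (1 / η ^ 2) := by
        refine (cs f (fun a => rs V z a x) (fun a => rs (0 : Tor d M → ℝ) ζ a x) Φ hf).trans ?_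
        refine mul_le_mul_of_nonneg_left ?_ hΦ.le
        refine (mul_le_mul (Real.sqrt_le_sqrt (hcolB V x)) (Real.sqrt_le_sqrt hg0)
          (Real.sqrt_nonneg _) (Real.sqrt_nonneg _)).trans (le_of_eq hsq)
      have b2 : ‖S x‖ ≤ Φ * (1 / η ^ 2) := by
        refine (cs f (fun a => rs (0 : Tor d M → ℝ) ζ a x)
          (fun a => rs (0 : Tor d M → ℝ) ζ a x) Φ hf).trans ?_
        refine mul_le_mul_of_nonneg_left ?_ hΦ.le
        refine (mul_le_mul (Real.sqrt_le_sqrt hg0) (Real.sqrt_le_sqrt hg0)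
          (Real.sqrt_nonneg _) (Real.sqrt_nonneg _)).trans (le_of_eq hsq)
      refine (norm_sub_le _ _).trans ((add_le_add b1 b2).trans (le_of_eq ?_))
      ring
  -- conclusion
  have hre := congrArg Complex.re hT
  rw [Complex.ofReal_re] at hre
  have hre2 : ∀ X : ℂ, ((v : ℂ) * X).re = v * X.re := by
    intro X
    have : ((v : ℝ≥0) : ℂ) = (((v : ℝ≥0) : ℝ) : ℂ) := rfl
    rw [this, Complex.re_ofReal_mul]
  rw [Complex.add_re, Complex.add_re, hre2, hre2] at hre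
  rw [hre]
  have q2 := (Complex.re_le_norm _).trans hT2
  have q3 := (Complex.re_le_norm _).trans hT3
  have q2' := mul_le_mul_of_nonneg_left q2 (NNReal.coe_nonneg v)
  have q3' := mul_le_mul_of_nonneg_left q3 (NNReal.coe_nonneg v)
  refine (add_le_add (add_le_add hT1re q2') q3').trans ?_
  have hfin : (v : ℝ) * (C.card * Φ * (g₀ / η * (δ₀ / ζ.im)) +
        (C.card * Φ * (2 / η ^ 4)) * (2 * p)) +
      v * ((δ₂ * Φ + Φ * (s₀ * K₀)) * (C.card * (g₀ / η)) +
        ((2 * Φ / η ^ 2) * (C.card * (1 / η ^ 2))) * (2 * p)) =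
      C.card * Φ * (v / η * g₀ * (δ₀ / ζ.im + δ₂ + s₀ * K₀) + 8 * v * p / η ^ 4) := by
    field_simp
    ring
  have h8 : (C.card : ℝ) * Φ * (8 * v * p / η ^ 4) ≤ C.card * Φ * (10 * v * p / η ^ 4) := by
    refine mul_le_mul_of_nonneg_left ?_ (by positivity)
    refine div_le_div_of_nonneg_right ?_ (by positivity)
    have : 0 ≤ (v : ℝ) * p := mul_nonneg v.2 hp
    nlinarith
  have hexp : (C.card : ℝ) * Φ * (s₀ * K₀ + v / η * g₀ * (δ₀ / ζ.im + δ₂ + s₀ * K₀) +
      10 * v * p / η ^ 4) = C.card * Φ * (s₀ * K₀) +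
        C.card * Φ * (v / η * g₀ * (δ₀ / ζ.im + δ₂ + s₀ * K₀)) +
        C.card * Φ * (10 * v * p / η ^ 4) := by ring
  rw [hexp]
  rw [mul_add (C.card * Φ : ℝ) (v / η * g₀ * (δ₀ / ζ.im + δ₂ + s₀ * K₀))] at hfin
  linarith

end Pool.Agent.LE.QD.H22
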